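import Pool.Agent.Lib.MP_ecd12e_nt.Bar.Final

set_option autoImplicit false

/-- Montgomery's large value bound in a neighbourhood of the point `σ = 3/4`, `T = N`. -/
theorem Pool.Agent.Results.MP_ecd12e_nt.Barrier.result :
    ∃ δ : ℝ, 0 < δ ∧ ∀ ε : ℝ, 0 < ε → ∃ C : ℝ, ∀ σ : ℝ, 3 / 4 - δ ≤ σ →
      ∀ N : ℕ, 1 ≤ N → ∀ T : ℝ, (N : ℝ) ≤ T → T ≤ (N : ℝ) ^ (1 + δ) →
      ∀ b : ℕ → ℂ, (∀ n, ‖b n‖ ≤ 1) →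
      ∀ W : Finset ℤ,
        (∀ t ∈ W, 0 ≤ (t : ℝ) ∧ (t : ℝ) ≤ T ∧
          (N : ℝ) ^ σ < ‖∑ n ∈ Finset.Icc N (2 * N),
              b n * Complex.exp ((((t : ℝ) * Real.log (n : ℝ) : ℝ) : ℂ) * Complex.I)‖) →
        (W.card : ℝ) ≤ C * (N : ℝ) ^ (2 - 2 * σ + ε) :=
  Pool.Agent.Lib.MP_ecd12e_nt.Bar.large_values
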