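import Pool.Agent.Lib.MP_ecd12e_nt.GM.Real

/-- A large value estimate with the exponent `175 / 73 = 12 / 5 - 1 / 365`. -/
theorem Pool.Agent.Results.MP_ecd12e_nt.GuthMaynard.result :
    ∀ ε : ℝ, 0 < ε → ∃ C : ℝ, ∀ N : ℕ, 1 ≤ N → ∀ T V : ℝ, (N : ℝ) ≤ T → 0 < V →
      ∀ b : ℕ → ℂ, (∀ n, ‖b n‖ ≤ 1) →
      ∀ W : Finset ℝ, (∀ t ∈ W, ∀ t' ∈ W, t ≠ t' → 1 ≤ |t - t'|) →
        (∀ t ∈ W, 0 ≤ t ∧ t ≤ T ∧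
          V ≤ ‖∑ n ∈ Finset.Icc N (2 * N),
              b n * Complex.exp (((t * Real.log (n : ℝ) : ℝ) : ℂ) * Complex.I)‖) →
        (W.card : ℝ) ≤ C * (N : ℝ) ^ ε * ((N : ℝ) ^ 2 / V ^ 2
          + Real.sqrt (min T ((N : ℝ) ^ (88 / 73 : ℝ))) * (N : ℝ) ^ 3 / V ^ 4
          + T * (N : ℝ) ^ (175 / 73 : ℝ) / V ^ 4) :=
  Pool.Agent.Lib.MP_ecd12e_nt.GM.large_values_real
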