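import Pool.Agent.Lib.MP_ecd12e_nt.DH2.Weak2

/-- The large value bound `T ^ (2 - 2 σ + ε)` for `σ ≥ 31 / 40`. -/
theorem Pool.Agent.Results.MP_ecd12e_nt.WeakBound.result :
    ∀ A ε : ℝ, 0 < ε → ∃ C : ℝ, ∀ σ : ℝ, 31 / 40 ≤ σ → σ ≤ 1 → ∀ N : ℕ, 1 ≤ N → ∀ T : ℝ,
      (((N : ℝ) ≤ T ∧ T ^ 2 ≤ (N : ℝ) ^ 3) ∨ ((N : ℝ) ^ 2 ≤ T ∧ T ≤ (N : ℝ) ^ A)) →
      ∀ b : ℕ → ℂ, (∀ n, ‖b n‖ ≤ 1) →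
      ∀ W : Finset ℝ, (∀ t ∈ W, ∀ t' ∈ W, t ≠ t' → 1 ≤ |t - t'|) →
        (∀ t ∈ W, 0 ≤ t ∧ t ≤ T ∧
          (N : ℝ) ^ σ ≤ ‖∑ n ∈ Finset.Icc N (2 * N),
              b n * Complex.exp (((t * Real.log (n : ℝ) : ℝ) : ℂ) * Complex.I)‖) →
        (W.card : ℝ) ≤ C * T ^ (2 - 2 * σ + ε) := fun A _ hε =>
  Pool.Agent.Lib.MP_ecd12e_nt.DH2.gen_real (by norm_num) Pool.Agent.Lib.MP_ecd12e_nt.DH2.wk A hε
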